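import Mathlib
import Pool.Agent.Y13.KB.Dim

/-!
# MP_44d275_an: disjoint unit balls with a hull with new interior points, in every large dimension

For every `n ≥ 2^40 + 18` there are finitely many pairwise disjoint closed balls of radius one in
`ℂⁿ` whose union is not polynomially convex; its polynomial hull contains a whole ball which is
disjoint from the union, and the same holds for the hull with respect to all functions holomorphic
near a fixed large closed ball.
-/

set_option autoImplicit false

namespace Pool.Agent.Results.MP_44d275_an.UnitBallsEveryLargeDimension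

open Metric Pool.Agent.Y13.KB

/-- The polynomial hull of `D`: the points at which no polynomial exceeds its supremum over `D`
(`m` is any upper bound of `|P|` on `D`). -/
def polyHull {n : ℕ} (D : Set (EuclideanSpace ℂ (Fin n))) : Set (EuclideanSpace ℂ (Fin n)) :=
  {z | ∀ (P : MvPolynomial (Fin n) ℂ) (m : ℝ),
    (∀ ζ ∈ D, ‖MvPolynomial.eval (fun i => ζ i) P‖ ≤ m) →
      ‖MvPolynomial.eval (fun i => z i) P‖ ≤ m}

theorem diff_poly {n : ℕ} (P : MvPolynomial (Fin n) ℂ) :
    Differentiable ℂ (fun x : EuclideanSpace ℂ (Fin n) => MvPolynomial.eval (fun i => x i) P) := by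
  induction P using MvPolynomial.induction_on with
  | C a =>
    simp only [MvPolynomial.eval_C]
    exact differentiable_const a
  | add p q hp hq =>
    simp only [map_add]
    exact hp.add hq
  | mul_X p i hp =>
    simp only [map_mul, MvPolynomial.eval_X]
    have h : Differentiable ℂ (fun x : EuclideanSpace ℂ (Fin n) => x i) :=
      (EuclideanSpace.proj (𝕜 := ℂ) i : EuclideanSpace ℂ (Fin n) →L[ℂ] ℂ).differentiable
    exact hp.mul h

/-- For every `n ≥ 2^40 + 18` there are finitely many pairwise disjoint closed balls of radius one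
in `ℂⁿ`, a closed ball `closedBall q ρ`, `ρ > 0`, disjoint from all of them, and `Λ` such that

* `closedBall q ρ` lies in the polynomial hull of the union of the unit balls, so that the union is
  not polynomially convex and its hull has new interior points;
* for every function `f` complex differentiable at all points of the closed ball of radius `Λ`
  about the origin there is a point `y` of the union with `|f z| ≤ |f y|` for all
  `z ∈ closedBall q ρ`. -/
theorem result (n : ℕ) (hn : 2 ^ 40 + 18 ≤ n) :
    ∃ (k : ℕ) (c : Fin k → EuclideanSpace ℂ (Fin n)) (q : EuclideanSpace ℂ (Fin n)) (ρ Λ : ℝ),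
      0 < ρ ∧ (∀ i j, i ≠ j → Disjoint (closedBall (c i) 1) (closedBall (c j) 1)) ∧
      (∀ i, Disjoint (closedBall q ρ) (closedBall (c i) 1)) ∧
      closedBall q ρ ⊆ polyHull (⋃ i, closedBall (c i) 1) ∧
      polyHull (⋃ i, closedBall (c i) 1) ≠ ⋃ i, closedBall (c i) 1 ∧
      ∀ f : EuclideanSpace ℂ (Fin n) → ℂ, (∀ x, ‖x‖ ≤ Λ → DifferentiableAt ℂ f x) →
        ∃ y ∈ ⋃ i, closedBall (c i) 1, ∀ z ∈ closedBall q ρ, ‖f z‖ ≤ ‖f y‖ := by
  obtain ⟨k, c, q, ρ, Λ, hρ, h1, h2, h3⟩ := bad_all n hn
  have hsub : closedBall q ρ ⊆ polyHull (⋃ i, closedBall (c i) 1) := by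
    intro z hz P m hm
    obtain ⟨i, y, hy, h⟩ := h3 (fun x => MvPolynomial.eval (fun i => x i) P)
      fun x _ => diff_poly P x
    exact (h z hz).trans (hm y (Set.mem_iUnion.2 ⟨i, hy⟩))
  refine ⟨k, c, q, ρ, Λ, hρ, h1, h2, hsub, ?_, ?_⟩
  · intro h
    have hq : q ∈ ⋃ i, closedBall (c i) 1 := h ▸ hsub (mem_closedBall_self hρ.le)
    obtain ⟨i, hi⟩ := Set.mem_iUnion.1 hq
    exact Set.disjoint_left.1 (h2 i) (mem_closedBall_self hρ.le) hi
  · intro f hf
    obtain ⟨i, y, hy, h⟩ := h3 f hf
    exact ⟨y, Set.mem_iUnion.2 ⟨i, hy⟩, h⟩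

end Pool.Agent.Results.MP_44d275_an.UnitBallsEveryLargeDimension
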